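import Mathlib

set_option autoImplicit false
set_option linter.unusedSectionVars false
open Polynomial

namespace Pool.Agent.H.MP_cfda27_lc

variable {k : Type} [Field k]

/-- Free algebra on a letter `z` and the elements of `N`. -/
abbrev FF (k : Type) [Field k] (N : Type) := FreeAlgebra k (Option N)

def zz (k : Type) [Field k] (N : Type) : FF k N := FreeAlgebra.ι k none
def br (k : Type) [Field k] {N : Type} (x : N) : FF k N := FreeAlgebra.ι k (some x)

def Fmap (k : Type) [Field k] {M N : Type} (u : M → N) : FF k M →ₐ[k] FF k N :=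
  FreeAlgebra.lift k (fun a => FreeAlgebra.ι k (Option.map u a))

@[simp] theorem Fmap_z {M N : Type} (u : M → N) : Fmap k u (zz k M) = zz k N := by
  simp [Fmap, zz]

@[simp] theorem Fmap_br {M N : Type} (u : M → N) (x : M) : Fmap k u (br k x) = br k (u x) := by
  simp [Fmap, br]

theorem FF_ext {M B : Type} [Semiring B] [Algebra k B] {f g : FF k M →ₐ[k] B}
    (hz : f (zz k M) = g (zz k M)) (hb : ∀ x, f (br k x) = g (br k x)) : f = g := by
  apply FreeAlgebra.hom_ext
  funext a
  cases a with
  | none => exact hz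
  | some x => exact hb x

theorem Fmap_comp {M N Q : Type} (u : M → N) (v : N → Q) (f : FF k M) :
    Fmap k v (Fmap k u f) = Fmap k (v ∘ u) f := by
  have : (Fmap k v).comp (Fmap k u) = Fmap k (v ∘ u) := FF_ext (by simp) (by simp)
  exact congrArg (fun g => g f) this

theorem Fmap_id {M : Type} (f : FF k M) : Fmap k id f = f := by
  have : Fmap k (id : M → M) = AlgHom.id k _ := FF_ext (by simp) (by simp)
  rw [this]; rfl

theorem exists_supp {M : Type} (f : FF k M) :
    ∃ s : Finset M, ∀ (M' : Type) (u v : M → M'), (∀ x ∈ s, u x = v x) →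
      Fmap k u f = Fmap k v f := by
  classical
  induction f using FreeAlgebra.induction with
  | grade0 r => exact ⟨∅, fun M' u v _ => by simp⟩
  | grade1 a =>
    cases a with
    | none => exact ⟨∅, fun M' u v _ => by
        change Fmap k u (zz k M) = Fmap k v (zz k M); simp⟩
    | some x => exact ⟨{x}, fun M' u v h => by
        change Fmap k u (br k x) = Fmap k v (br k x); simp [h x (by simp)]⟩
  | mul a b ha hb =>
    obtain ⟨s, hs⟩ := ha
    obtain ⟨t, ht⟩ := hb
    refine ⟨s ∪ t, fun M' u v h => ?_⟩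
    rw [map_mul, map_mul, hs M' u v (fun x hx => h x (by simp [hx])),
      ht M' u v (fun x hx => h x (by simp [hx]))]
  | add a b ha hb =>
    obtain ⟨s, hs⟩ := ha
    obtain ⟨t, ht⟩ := hb
    refine ⟨s ∪ t, fun M' u v h => ?_⟩
    rw [map_add, map_add, hs M' u v (fun x hx => h x (by simp [hx])),
      ht M' u v (fun x hx => h x (by simp [hx]))]

/-- Generators of the subalgebra. -/
inductive Gen (k : Type) [Field k] (N : Type) [AddCommGroup N] [Module k[X] N] : FF k N → Prop
  | z : Gen k N (zz k N)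
  | zb (x : N) : Gen k N (zz k N * br k x)
  | add (x y : N) : Gen k N (br k (x + y) - br k x - br k y)
  | smul (c : k) (x : N) : Gen k N (br k ((C c : k[X]) • x) - algebraMap k _ c * br k x)
  | xmul (x : N) : Gen k N (br k ((X : k[X]) • x) - br k x * zz k N)

def AA (k : Type) [Field k] (N : Type) [AddCommGroup N] [Module k[X] N] : Subalgebra k (FF k N) :=
  Algebra.adjoin k {f | Gen k N f}

theorem gen_mem {N : Type} [AddCommGroup N] [Module k[X] N] {f : FF k N} (h : Gen k N f) :
    f ∈ AA k N := Algebra.subset_adjoin h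

theorem Fmap_mem {M N : Type} [AddCommGroup M] [Module k[X] M] [AddCommGroup N] [Module k[X] N]
    (u : M →ₗ[k[X]] N) {f : FF k M} (hf : f ∈ AA k M) : Fmap k u f ∈ AA k N := by
  have : AA k M ≤ (AA k N).comap (Fmap k u) := by
    apply Algebra.adjoin_le
    intro g hg
    change Fmap k u g ∈ AA k N
    apply gen_mem
    cases hg with
    | z => simpa using Gen.z
    | zb x => simpa using Gen.zb (u x)
    | add x y => simpa using Gen.add (u x) (u y)
    | smul c x => simpa using Gen.smul c (u x)
    | xmul x => simpa using Gen.xmul (u x)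
  exact this hf

/-- Triangular algebra. -/
@[ext] structure T3 (R M : Type) where
  e : R
  c : R
  l : M
  m : M
  p : R

section
variable {R M : Type} [CommRing R] [AddCommGroup M] [Module R M]

instance : Add (T3 R M) := ⟨fun a b => ⟨a.e + b.e, a.c + b.c, a.l + b.l, a.m + b.m, a.p + b.p⟩⟩
instance : Neg (T3 R M) := ⟨fun a => ⟨-a.e, -a.c, -a.l, -a.m, -a.p⟩⟩
instance : Zero (T3 R M) := ⟨⟨0, 0, 0, 0, 0⟩⟩
instance : One (T3 R M) := ⟨⟨1, 0, 0, 0, 1⟩⟩
instance : Mul (T3 R M) := ⟨fun a b => ⟨a.e * b.e, a.e * b.c + a.c * b.e,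
  a.e • b.l + a.c • b.m + b.p • a.l, a.e • b.m + b.p • a.m, a.p * b.p⟩⟩

@[simp] theorem add_e (a b : T3 R M) : (a + b).e = a.e + b.e := rfl
@[simp] theorem add_c (a b : T3 R M) : (a + b).c = a.c + b.c := rfl
@[simp] theorem add_l (a b : T3 R M) : (a + b).l = a.l + b.l := rfl
@[simp] theorem add_m (a b : T3 R M) : (a + b).m = a.m + b.m := rfl
@[simp] theorem add_p (a b : T3 R M) : (a + b).p = a.p + b.p := rfl
@[simp] theorem neg_e (a : T3 R M) : (-a).e = -a.e := rfl
@[simp] theorem neg_c (a : T3 R M) : (-a).c = -a.c := rfl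
@[simp] theorem neg_l (a : T3 R M) : (-a).l = -a.l := rfl
@[simp] theorem neg_m (a : T3 R M) : (-a).m = -a.m := rfl
@[simp] theorem neg_p (a : T3 R M) : (-a).p = -a.p := rfl
@[simp] theorem zero_e : (0 : T3 R M).e = 0 := rfl
@[simp] theorem zero_c : (0 : T3 R M).c = 0 := rfl
@[simp] theorem zero_l : (0 : T3 R M).l = 0 := rfl
@[simp] theorem zero_m : (0 : T3 R M).m = 0 := rfl
@[simp] theorem zero_p : (0 : T3 R M).p = 0 := rfl
@[simp] theorem one_e : (1 : T3 R M).e = 1 := rfl
@[simp] theorem one_c : (1 : T3 R M).c = 0 := rfl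
@[simp] theorem one_l : (1 : T3 R M).l = 0 := rfl
@[simp] theorem one_m : (1 : T3 R M).m = 0 := rfl
@[simp] theorem one_p : (1 : T3 R M).p = 1 := rfl
@[simp] theorem mul_e (a b : T3 R M) : (a * b).e = a.e * b.e := rfl
@[simp] theorem mul_c (a b : T3 R M) : (a * b).c = a.e * b.c + a.c * b.e := rfl
@[simp] theorem mul_l (a b : T3 R M) : (a * b).l = a.e • b.l + a.c • b.m + b.p • a.l := rfl
@[simp] theorem mul_m (a b : T3 R M) : (a * b).m = a.e • b.m + b.p • a.m := rfl
@[simp] theorem mul_p (a b : T3 R M) : (a * b).p = a.p * b.p := rfl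

instance : AddCommGroup (T3 R M) where
  add_assoc a b c := by ext <;> simp [add_assoc]
  zero_add a := by ext <;> simp
  add_zero a := by ext <;> simp
  nsmul := nsmulRec
  zsmul := zsmulRec
  neg_add_cancel a := by ext <;> simp
  add_comm a b := by ext <;> simp [add_comm]

instance : Ring (T3 R M) where
  left_distrib a b c := by ext <;> simp <;> first | ring1 | module
  right_distrib a b c := by ext <;> simp <;> first | ring1 | module
  zero_mul a := by ext <;> simp
  mul_zero a := by ext <;> simp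
  mul_assoc a b c := by ext <;> simp <;> first | ring1 | module
  one_mul a := by ext <;> simp
  mul_one a := by ext <;> simp
  neg_add_cancel a := by ext <;> simp
  zsmul := zsmulRec

theorem sub_e (a b : T3 R M) : (a - b).e = a.e - b.e := by simp [sub_eq_add_neg]
theorem sub_c (a b : T3 R M) : (a - b).c = a.c - b.c := by simp [sub_eq_add_neg]
theorem sub_l (a b : T3 R M) : (a - b).l = a.l - b.l := by simp [sub_eq_add_neg]
theorem sub_m (a b : T3 R M) : (a - b).m = a.m - b.m := by simp [sub_eq_add_neg]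
theorem sub_p (a b : T3 R M) : (a - b).p = a.p - b.p := by simp [sub_eq_add_neg]

end

section
variable {M : Type} [AddCommGroup M] [Module k[X] M]

noncomputable def scal (k : Type) [Field k] (M : Type) [AddCommGroup M] [Module k[X] M] :
    k →+* T3 k[X] M where
  toFun c := ⟨C c, 0, 0, 0, C c⟩
  map_one' := by ext <;> simp
  map_mul' a b := by ext <;> simp
  map_zero' := by ext <;> simp
  map_add' a b := by ext <;> simp

noncomputable instance : Algebra k (T3 k[X] M) :=
  (scal k M).toAlgebra' (fun c x => by ext1 <;> simp [scal, mul_comm])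

theorem am_eq (c : k) : algebraMap k (T3 k[X] M) c = ⟨C c, 0, 0, 0, C c⟩ := rfl

noncomputable def Tmap {L : Type} [AddCommGroup L] [Module k[X] L] (q : L →ₗ[k[X]] M) :
    T3 k[X] L →ₐ[k] T3 k[X] M where
  toFun a := ⟨a.e, a.c, q a.l, q a.m, a.p⟩
  map_one' := by ext1 <;> simp
  map_mul' a b := by ext1 <;> simp
  map_zero' := by ext1 <;> simp
  map_add' a b := by ext1 <;> simp
  commutes' c := by ext1 <;> simp [am_eq]

/-- Elements with vanishing `m`. -/
noncomputable def T2 (k : Type) [Field k] (M : Type) [AddCommGroup M] [Module k[X] M] :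
    Subalgebra k (T3 k[X] M) where
  carrier := {a | a.m = 0}
  mul_mem' {a b} ha hb := by
    simp only [Set.mem_setOf_eq] at ha hb ⊢; simp [ha, hb]
  add_mem' {a b} ha hb := by
    simp only [Set.mem_setOf_eq] at ha hb ⊢; simp [ha, hb]
  algebraMap_mem' c := rfl

noncomputable def rho (k : Type) [Field k] (M : Type) [AddCommGroup M] [Module k[X] M] :
    FF k M →ₐ[k] T3 k[X] M :=
  FreeAlgebra.lift k (fun a => match a with
    | none => ⟨0, 1, 0, 0, X⟩
    | some x => ⟨0, 0, 0, x, 0⟩)

theorem rho_z : rho k M (zz k M) = ⟨0, 1, 0, 0, X⟩ := by simp [rho, zz]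
theorem rho_br (x : M) : rho k M (br k x) = ⟨0, 0, 0, x, 0⟩ := by simp [rho, br]

theorem rho_add (x y : M) : rho k M (br k (x + y) - br k x - br k y) = 0 := by
  simp only [map_sub, rho_br]
  ext1 <;> simp [sub_e, sub_c, sub_l, sub_m, sub_p]

theorem rho_smul (c : k) (x : M) :
    rho k M (br k ((C c : k[X]) • x) - algebraMap k _ c * br k x) = 0 := by
  simp only [map_sub, map_mul, rho_br, AlgHom.commutes, am_eq]
  ext1 <;> simp [sub_e, sub_c, sub_l, sub_m, sub_p]

theorem rho_xmul (x : M) : rho k M (br k ((X : k[X]) • x) - br k x * zz k M) = 0 := by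
  simp only [map_sub, map_mul, rho_br, rho_z]
  ext1 <;> simp [sub_e, sub_c, sub_l, sub_m, sub_p]

theorem rho_zb (x : M) : rho k M (zz k M * br k x) = ⟨0, 0, x, 0, 0⟩ := by
  simp only [map_mul, rho_br, rho_z]
  ext1 <;> simp

theorem rho_mem {f : FF k M} (hf : f ∈ AA k M) : (rho k M f).m = 0 := by
  have : AA k M ≤ (T2 k M).comap (rho k M) := by
    apply Algebra.adjoin_le
    intro g hg
    change (rho k M g).m = 0
    cases hg with
    | z => rw [rho_z]
    | zb x => rw [rho_zb]
    | add x y => rw [rho_add]; rfl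
    | smul c x => rw [rho_smul]; rfl
    | xmul x => rw [rho_xmul]; rfl
  exact this hf

/-- If the representation lifts on a nonunital subalgebra containing the generators, then `M`
embeds in `L`. -/
theorem embed_of_lift {L : Type} [AddCommGroup L] [Module k[X] L] (q : L →ₗ[k[X]] M)
    (B : NonUnitalSubalgebra k (FF k M)) (hB : ∀ f, Gen k M f → f ∈ B)
    (h : B →ₙₐ[k] T3 k[X] L) (hm : ∀ a, (h a).m = 0) (hq : ∀ a, Tmap q (h a) = rho k M a) :
    ∃ ψ : M →ₗ[k[X]] L, Function.Injective ψ := by
  let Z : B := ⟨zz k M, hB _ Gen.z⟩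
  let W : M → B := fun x => ⟨zz k M * br k x, hB _ (Gen.zb x)⟩
  have hZe : (h Z).e = 0 := by
    have := congrArg T3.e (hq Z); simpa [Z, rho_z, Tmap] using this
  have hZp : (h Z).p = X := by
    have := congrArg T3.p (hq Z); simpa [Z, rho_z, Tmap] using this
  have hWe : ∀ x, (h (W x)).e = 0 := fun x => by
    have := congrArg T3.e (hq (W x)); simpa [W, rho_zb, Tmap] using this
  have hWc : ∀ x, (h (W x)).c = 0 := fun x => by
    have := congrArg T3.c (hq (W x)); simpa [W, rho_zb, Tmap] using this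
  have hWl : ∀ x, q (h (W x)).l = x := fun x => by
    have := congrArg T3.l (hq (W x)); simpa [W, rho_zb, Tmap] using this
  have hrel : ∀ r : B, rho k M r = 0 → (h (Z * r)).l = 0 := by
    intro r hr
    have hp : (h r).p = 0 := by
      have := congrArg T3.p (hq r); rw [hr] at this; simpa [Tmap] using this
    rw [map_mul]; simp [hZe, hm, hp]
  let ψ : M → L := fun x => (h (W x)).l
  have hadd : ∀ x y, ψ (x + y) = ψ x + ψ y := by
    intro x y
    have h1 := hrel ⟨_, hB _ (Gen.add x y)⟩ (rho_add x y)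
    have h2 : Z * ⟨_, hB _ (Gen.add x y)⟩ = W (x + y) - W x - W y := by
      apply Subtype.ext; simp [Z, W, mul_sub]
    rw [h2, map_sub, map_sub, sub_l, sub_l] at h1
    simp only [ψ]; rw [sub_sub, sub_eq_zero] at h1; exact h1
  have hC : ∀ (c : k) x, ψ ((C c : k[X]) • x) = (C c : k[X]) • ψ x := by
    intro c x
    have h1 := hrel ⟨_, hB _ (Gen.smul c x)⟩ (rho_smul c x)
    have h2 : Z * ⟨_, hB _ (Gen.smul c x)⟩ = W ((C c : k[X]) • x) - c • W x := by
      apply Subtype.ext; simp [Z, W, mul_sub, ← Algebra.smul_def]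
    rw [h2, map_sub, map_smul, sub_l, Algebra.smul_def, am_eq] at h1
    simp only [mul_l, zero_smul, smul_zero, add_zero] at h1
    simp only [ψ]; exact sub_eq_zero.1 h1
  have hX : ∀ x, ψ ((X : k[X]) • x) = (X : k[X]) • ψ x := by
    intro x
    have h1 := hrel ⟨_, hB _ (Gen.xmul x)⟩ (rho_xmul x)
    have h2 : Z * ⟨_, hB _ (Gen.xmul x)⟩ = W ((X : k[X]) • x) - W x * Z := by
      apply Subtype.ext; simp [Z, W, mul_sub, mul_assoc]
    rw [h2, map_sub, map_mul, sub_l] at h1
    simp only [mul_l, hWe, hWc, hZp, zero_smul, zero_add] at h1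
    simp only [ψ]; exact sub_eq_zero.1 h1
  have hs : ∀ (p : k[X]) x, ψ (p • x) = p • ψ x := by
    intro p
    induction p using Polynomial.induction_on with
    | C c => exact hC c
    | add p r hp hr => intro x; rw [add_smul, hadd, hp, hr, add_smul]
    | monomial n c ih =>
      intro x
      rw [pow_succ, ← mul_assoc, mul_smul, ih, hX, mul_smul (C c * X ^ n)]
  refine ⟨⟨⟨ψ, hadd⟩, hs⟩, fun x y hxy => ?_⟩
  rw [← hWl x, ← hWl y]
  exact congrArg q hxy

end

end Pool.Agent.H.MP_cfda27_lc
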