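import Pool.Agent.H.MP_cfda27_lc.A

set_option autoImplicit false
set_option linter.unusedSectionVars false
open Polynomial

namespace Pool.Agent.H.MP_cfda27_lc

variable {k : Type} [Field k]

theorem eq_zero_of_dvd (p : k[X]) (h : ∀ m : ℕ, (X : k[X]) ^ m ∣ p) : p = 0 := by
  ext n
  exact (Polynomial.X_pow_dvd_iff.1 (h (n + 1))) n (Nat.lt_succ_self n)

theorem no_embed {Y : Type} (ψ : (ℕ → k[X]) →ₗ[k[X]] (Y →₀ k[X])) : ¬ Function.Injective ψ := by
  classical
  intro hψ
  let Y0 : Set Y := ⋃ n : ℕ, ((ψ (Pi.single n 1)).support : Set Y)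
  have hY0 : Y0.Countable := Set.countable_iUnion (fun n => (Finset.finite_toSet _).countable)
  let g : (ℕ → k) →ₗ[k] (ℕ → k[X]) :=
    { toFun := fun c n => C (c n) * X ^ n
      map_add' := fun a b => by funext n; simp [add_mul]
      map_smul' := fun a b => by funext n; simp [Polynomial.smul_eq_C_mul, mul_assoc] }
  have hg : Function.Injective g := by
    intro a b hab
    funext n
    have := congrArg (fun p => p.coeff n) (congrFun hab n)
    simpa [g] using this
  have hz : ∀ c y, y ∉ Y0 → ψ (g c) y = 0 := by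
    intro c y hy
    apply eq_zero_of_dvd
    intro m
    have h1 : g c = ∑ n ∈ Finset.range m, (g c n) • (Pi.single n 1 : ℕ → k[X]) +
        (X : k[X]) ^ m • (fun n => if m ≤ n then C (c n) * X ^ (n - m) else 0) := by
      funext n
      simp only [Pi.add_apply, Finset.sum_apply, Pi.smul_apply, smul_eq_mul, Pi.single_apply,
        mul_ite, mul_one, mul_zero, Finset.sum_ite_eq, Finset.mem_range]
      by_cases h : n < m
      · simp [h, not_le.2 h]
      · have h' : m ≤ n := not_lt.1 h
        simp only [h, h', if_true, if_false, zero_add, g, LinearMap.coe_mk, AddHom.coe_mk]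
        rw [mul_left_comm, ← pow_add, Nat.add_sub_cancel' h']
    have h2 : ∀ n, ψ (Pi.single n 1) y = 0 := by
      intro n
      by_contra hn
      exact hy (Set.mem_iUnion.2 ⟨n, by simpa using hn⟩)
    rw [h1, map_add, map_sum, map_smul]
    simp only [map_smul, Finsupp.add_apply, Finsupp.finsetSum_apply, Finsupp.smul_apply, h2,
      smul_eq_mul, mul_zero, Finset.sum_const_zero, zero_add]
    exact dvd_mul_right _ _
  let θ : (ℕ → k) →ₗ[k] (Y0 →₀ k[X]) :=
    (Finsupp.lsubtypeDomain Y0).comp ((ψ.restrictScalars k).comp g)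
  have hθ : Function.Injective θ := by
    rw [injective_iff_map_eq_zero]
    intro c hc
    apply hg
    apply hψ
    rw [map_zero, map_zero]
    ext1 y
    by_cases hy : y ∈ Y0
    · have := congrArg (fun f => f ⟨y, hy⟩) hc
      simpa [θ, Finsupp.lsubtypeDomain_apply] using this
    · simpa using hz c y hy
  have h1 := LinearMap.rank_le_of_injective θ hθ
  rw [rank_fun_infinite, rank_finsupp] at h1
  have h2 : Module.rank k k[X] = Cardinal.aleph0 := by
    rw [← (Polynomial.basisMonomials k).mk_eq_rank'']; simp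
  have h3 : Cardinal.mk Y0 ≤ Cardinal.aleph0 := Cardinal.le_aleph0_iff_set_countable.2 hY0
  simp only [Cardinal.lift_id, h2] at h1
  have h4 : Cardinal.mk Y0 * Cardinal.aleph0 ≤ Cardinal.aleph0 := by
    calc _ ≤ Cardinal.aleph0 * Cardinal.aleph0 := by gcongr
      _ = _ := Cardinal.aleph0_mul_aleph0
  have h5 : Cardinal.continuum ≤ Cardinal.mk (ℕ → k) := by
    rw [← Cardinal.two_power_aleph0]
    simp only [Cardinal.mk_pi, Cardinal.prod_const, Cardinal.lift_id, Cardinal.mk_nat]
    exact Cardinal.power_le_power_right (Cardinal.two_le_iff.2 (exists_pair_ne k))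
  exact absurd (h5.trans (h1.trans h4)) (not_le.2 Cardinal.aleph0_lt_continuum)

theorem step_aut (l : ℕ) (b : ℕ → k[X]) :
    ∃ θ : (ℕ → k[X]) ≃ₗ[k[X]] (ℕ → k[X]), (∀ x : ℕ → k[X], (∀ n, l ≤ n → x n = 0) → θ x = x) ∧
      ∃ l', ∀ n, l' ≤ n → θ b n = 0 := by
  classical
  let J : Ideal k[X] := Ideal.span (Set.range (fun n : ℕ => b (l + n)))
  obtain ⟨d, hd⟩ := (IsPrincipalIdealRing.principal J).principal
  have hdJ : d ∈ J := by rw [hd]; exact Submodule.mem_span_singleton_self d
  obtain ⟨c, hc⟩ := (Finsupp.mem_span_range_iff_exists_finsupp).1 hdJ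
  have hdvd : ∀ n, l ≤ n → ∃ r, b n = d * r := by
    intro n hn
    have : b n ∈ J := Ideal.subset_span ⟨n - l, by simp [Nat.add_sub_cancel' hn]⟩
    rw [hd] at this
    obtain ⟨r, hr⟩ := Submodule.mem_span_singleton.1 this
    exact ⟨r, by rw [← hr, smul_eq_mul, mul_comm]⟩
  choose! r hr using hdvd
  let l' := l + c.support.sup id + 1
  let r' : ℕ → k[X] := fun n => if l' ≤ n then r n else 0
  let f : (ℕ → k[X]) →ₗ[k[X]] k[X] :=
    { toFun := fun x => ∑ n ∈ c.support, c n * x (l + n)
      map_add' := fun x y => by simp [mul_add, Finset.sum_add_distrib]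
      map_smul' := fun a x => by simp [Finset.mul_sum, mul_left_comm] }
  have hfr : f r' = 0 := by
    apply Finset.sum_eq_zero
    intro n hn
    have : n ≤ c.support.sup id := Finset.le_sup (f := id) hn
    have h2 : ¬ l' ≤ l + n := by omega
    simp [r', h2]
  have hfb : f b = d := by
    rw [← hc]; rfl
  let θ : (ℕ → k[X]) ≃ₗ[k[X]] (ℕ → k[X]) :=
    { toFun := fun x => x - f x • r'
      map_add' := fun x y => by simp only [map_add, add_smul]; abel
      map_smul' := fun a x => by simp only [map_smul, smul_sub, smul_eq_mul, mul_smul, RingHom.id_apply]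
      invFun := fun x => x + f x • r'
      left_inv := fun x => by simp [hfr]
      right_inv := fun x => by simp [hfr] }
  refine ⟨θ, fun x hx => ?_, l', fun n hn => ?_⟩
  · have : f x = 0 := Finset.sum_eq_zero (fun n _ => by simp [hx (l + n) (by omega)])
    change x - f x • r' = x
    simp [this]
  · change (b - f b • r') n = 0
    simp only [Pi.sub_apply, Pi.smul_apply, hfb, r', hn, if_true, smul_eq_mul]
    rw [hr n (by omega), sub_self]

theorem exists_aut (l : ℕ) (t : Finset (ℕ → k[X])) :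
    ∃ θ : (ℕ → k[X]) ≃ₗ[k[X]] (ℕ → k[X]), (∀ x : ℕ → k[X], (∀ n, l ≤ n → x n = 0) → θ x = x) ∧
      ∃ l', ∀ x ∈ t, ∀ n, l' ≤ n → θ x n = 0 := by
  classical
  induction t using Finset.induction_on with
  | empty => exact ⟨LinearEquiv.refl _ _, fun _ _ => rfl, 0, by simp⟩
  | insert b t _ ih =>
    obtain ⟨θ, h1, l1, h2⟩ := ih
    obtain ⟨θ', h3, l2, h4⟩ := step_aut (max l l1) (θ b)
    refine ⟨θ.trans θ', fun x hx => ?_, max l1 l2, fun x hx n hn => ?_⟩
    · rw [LinearEquiv.trans_apply, h1 x hx, h3 x (fun n hn => hx n (le_of_max_le_left hn))]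
    · rw [LinearEquiv.trans_apply]
      rcases Finset.mem_insert.1 hx with rfl | hx
      · exact h4 n (le_of_max_le_right hn)
      · rw [h3 _ (fun n hn => h2 x hx n (le_of_max_le_right hn))]
        exact h2 x hx n (le_of_max_le_left hn)

abbrev PP (k : Type) [Field k] := ℕ → k[X]
abbrev NN (k : Type) [Field k] := ℕ →₀ k[X]

noncomputable def inc (k : Type) [Field k] : NN k →ₗ[k[X]] PP k := Finsupp.lcoeFun

noncomputable def trunc (k : Type) [Field k] (l : ℕ) : PP k →ₗ[k[X]] NN k where
  toFun x := ∑ n ∈ Finset.range l, Finsupp.single n (x n)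
  map_add' x y := by simp [Finsupp.single_add, Finset.sum_add_distrib]
  map_smul' a x := by simp [Finset.smul_sum]

theorem trunc_apply (l : ℕ) (x : PP k) (n : ℕ) : trunc k l x n = if n < l then x n else 0 := by
  classical
  simp [trunc, Finsupp.finsetSum_apply, Finsupp.single_apply]

theorem inc_trunc (l : ℕ) (x : PP k) (h : ∀ n, l ≤ n → x n = 0) : inc k (trunc k l x) = x := by
  funext n
  change trunc k l x n = x n
  rw [trunc_apply]
  split_ifs with hn
  · rfl
  · exact (h n (not_lt.1 hn)).symm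

theorem inc_inj : Function.Injective (inc k) := DFunLike.coe_injective

theorem exists_bound (s : Finset (NN k)) : ∃ l, ∀ x ∈ s, ∀ n, l ≤ n → inc k x n = 0 := by
  classical
  refine ⟨(s.biUnion (fun x => x.support)).sup id + 1, fun x hx n hn => ?_⟩
  by_contra h
  have : n ∈ s.biUnion (fun x => x.support) :=
    Finset.mem_biUnion.2 ⟨x, hx, Finsupp.mem_support_iff.2 h⟩
  have := Finset.le_sup (f := id) this
  simp only [id] at this
  omega

/-- The embedding of the small pair in the big pair. -/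
noncomputable def jj (k : Type) [Field k] : FF k (NN k) →ₐ[k] FF k (PP k) := Fmap k (inc k)

theorem retr (f : FF k (NN k)) : ∃ l, Fmap k (trunc k l) (jj k f) = f := by
  obtain ⟨s, hs⟩ := exists_supp f
  obtain ⟨l, hl⟩ := exists_bound s
  refine ⟨l, ?_⟩
  rw [jj, Fmap_comp, hs _ _ id, Fmap_id]
  intro x hx
  apply inc_inj
  exact inc_trunc l _ (hl x hx)

theorem jj_inj : Function.Injective (jj k) := by
  rw [injective_iff_map_eq_zero]
  intro f hf
  obtain ⟨l, hl⟩ := retr f
  rw [← hl, hf, map_zero]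

theorem jj_mem (f : FF k (NN k)) : jj k f ∈ AA k (PP k) ↔ f ∈ AA k (NN k) := by
  refine ⟨fun h => ?_, fun h => Fmap_mem (inc k) h⟩
  obtain ⟨l, hl⟩ := retr f
  rw [← hl]
  exact Fmap_mem (trunc k l) h

/-- The augmentation. -/
def eps (k : Type) [Field k] (Y : Type) : FreeAlgebra k Y →ₐ[k] k :=
  FreeAlgebra.lift k (fun _ => 0)

@[simp] theorem eps_i {Y : Type} (y : Y) : eps k Y (FreeAlgebra.ι k y) = 0 := by simp [eps]
@[simp] theorem eps_z {M : Type} : eps k _ (zz k M) = 0 := eps_i _
@[simp] theorem eps_br {M : Type} (x : M) : eps k _ (br k x) = 0 := eps_i _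

theorem eps_Fmap {M N : Type} (u : M → N) (f : FF k M) : eps k _ (Fmap k u f) = eps k _ f := by
  have : (eps k _).comp (Fmap k u) = eps k _ := FF_ext (by simp) (by simp)
  exact congrArg (fun g => g f) this

theorem homog (s : Finset (FF k (NN k))) (b : FF k (PP k)) :
    ∃ θ : FF k (PP k) ≃ₐ[k] FF k (PP k), (∀ x, θ x ∈ AA k (PP k) ↔ x ∈ AA k (PP k)) ∧
      (∀ x, eps k _ (θ x) = eps k _ x) ∧ (∀ a ∈ s, θ (jj k a) = jj k a) ∧
      θ b ∈ Set.range (jj k) := by
  classical
  choose S hS using (exists_supp (k := k) (M := NN k))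
  obtain ⟨l, hl⟩ := exists_bound (s.biUnion S)
  obtain ⟨t, ht⟩ := exists_supp b
  obtain ⟨θ, h1, l', h2⟩ := exists_aut l t
  let Θ : FF k (PP k) ≃ₐ[k] FF k (PP k) :=
    AlgEquiv.ofAlgHom (Fmap k θ) (Fmap k θ.symm) (FF_ext (by simp) (by simp))
      (FF_ext (by simp) (by simp))
  refine ⟨Θ, fun x => ⟨fun h => ?_, fun h => Fmap_mem θ.toLinearMap h⟩,
    fun x => eps_Fmap _ _, fun a ha => ?_, ?_⟩
  · have := Fmap_mem θ.symm.toLinearMap h
    have h3 : Fmap k θ.symm.toLinearMap (Θ x) = x := Θ.symm_apply_apply x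
    rwa [h3] at this
  · change Fmap k θ (Fmap k (inc k) a) = Fmap k (inc k) a
    rw [Fmap_comp]
    apply hS
    intro x hx
    exact h1 _ (hl x (Finset.mem_biUnion.2 ⟨a, ha, hx⟩))
  · refine ⟨Fmap k (trunc k l' ∘ θ) b, ?_⟩
    change Fmap k (inc k) _ = Fmap k θ b
    rw [Fmap_comp]
    apply ht
    intro x hx
    exact inc_trunc l' _ (h2 x hx)

end Pool.Agent.H.MP_cfda27_lc
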