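import Pool.Agent.H.MP_cfda27_lc.B

set_option autoImplicit false
set_option linter.unusedSectionVars false
open Polynomial

namespace Pool.Agent.H.MP_cfda27_lc

variable {k : Type} [Field k]

def IsE (x : NN k) : Prop := ∃ n, x = Finsupp.single n 1

noncomputable def sig (k : Type) [Field k] : NN k →+ FF k (NN k) :=
  Finsupp.liftAddHom (fun n => (AddMonoidHom.mulLeft (br k (Finsupp.single n 1 : NN k))).comp
    (aeval (zz k (NN k)) : k[X] →ₐ[k] FF k (NN k)).toRingHom.toAddMonoidHom)

theorem sig_single (n : ℕ) (p : k[X]) :
    sig k (Finsupp.single n p) = br k (Finsupp.single n 1 : NN k) * aeval (zz k (NN k)) p := by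
  simp [sig]

theorem sig_smul (p : k[X]) (x : NN k) : sig k (p • x) = sig k x * aeval (zz k (NN k)) p := by
  induction x using Finsupp.induction_linear with
  | zero => simp
  | add a b ha hb => rw [smul_add, map_add, map_add, ha, hb, add_mul]
  | single n q => rw [Finsupp.smul_single, sig_single, sig_single, smul_eq_mul, mul_comm p q,
      map_mul, mul_assoc]

theorem fix_sig (g : FF k (NN k) →ₐ[k] FF k (NN k)) (hz : g (zz k _) = zz k _)
    (he : ∀ n, g (br k (Finsupp.single n 1 : NN k)) = br k (Finsupp.single n 1 : NN k))
    (x : NN k) : g (sig k x) = sig k x := by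
  induction x using Finsupp.induction_linear with
  | zero => simp
  | add a b ha hb => rw [map_add, map_add, ha, hb]
  | single n q => rw [sig_single, map_mul, he, ← aeval_algHom_apply, hz]

theorem eps_sig (x : NN k) : eps k _ (sig k x) = 0 := by
  induction x using Finsupp.induction_linear with
  | zero => simp
  | add a b ha hb => rw [map_add, map_add, ha, hb, add_zero]
  | single n q => rw [sig_single, map_mul, eps_br, zero_mul]

open Classical in
noncomputable def shift (k : Type) [Field k] (s : k) : FF k (NN k) →ₐ[k] FF k (NN k) :=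
  FreeAlgebra.lift k (fun a => match a with
    | none => zz k _
    | some x => if IsE x then br k x else br k x + s • sig k x)

theorem shift_z (s : k) : shift k s (zz k _) = zz k _ := by simp [shift, zz]
open Classical in
theorem shift_br (s : k) (x : NN k) :
    shift k s (br k x) = if IsE x then br k x else br k x + s • sig k x := by simp [shift, br]

theorem shift_sig (s : k) (x : NN k) : shift k s (sig k x) = sig k x :=
  fix_sig _ (shift_z s) (fun n => by rw [shift_br, if_pos ⟨n, rfl⟩]) x

theorem shift_inj : Function.Injective (shift k (-1)) := by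
  have : (shift k 1).comp (shift k (-1)) = AlgHom.id k _ := by
    apply FF_ext
    · simp [shift_z]
    · intro x
      by_cases h : IsE x
      · simp [shift_br, h]
      · simp [shift_br, h, shift_sig]
  intro a b hab
  have h1 := congrArg (fun g => g a) this
  have h2 := congrArg (fun g => g b) this
  simp only [AlgHom.comp_apply, AlgHom.id_apply] at h1 h2
  rw [← h1, ← h2, hab]

open Classical in
noncomputable def gam (k : Type) [Field k] : FF k (NN k) →ₐ[k] FF k (NN k) :=
  FreeAlgebra.lift k (fun a => match a with
    | none => zz k _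
    | some x => if IsE x then zz k _ * br k x else br k x)

theorem gam_z : gam k (zz k _) = zz k _ := by simp [gam, zz]
open Classical in
theorem gam_br (x : NN k) : gam k (br k x) = if IsE x then zz k _ * br k x else br k x := by
  simp [gam, br]

open Classical in
noncomputable def act (k : Type) [Field k] :
    FF k (NN k) →ₐ[k] Module.End k (FF k (NN k) × FF k (NN k)) :=
  FreeAlgebra.lift k (fun a => match a with
    | none => (LinearMap.inl k _ _).comp
        ((LinearMap.mulLeft k (zz k (NN k))).comp (LinearMap.fst k _ _) + LinearMap.snd k _ _)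
    | some x => if IsE x then
        (LinearMap.inr k _ _).comp ((LinearMap.mulLeft k (br k x)).comp (LinearMap.fst k _ _))
        else (LinearMap.inl k _ _).comp ((LinearMap.mulLeft k (br k x)).comp (LinearMap.fst k _ _)))

theorem act_z (u v : FF k (NN k)) : act k (zz k _) (u, v) = (zz k _ * u + v, 0) := by
  simp [act, zz]

open Classical in
theorem act_br (x : NN k) (u v : FF k (NN k)) :
    act k (br k x) (u, v) = if IsE x then (0, br k x * u) else (br k x * u, 0) := by
  by_cases h : IsE x <;> simp [act, br, h]

theorem act_gam (f u : FF k (NN k)) : act k (gam k f) (u, 0) = (f * u, 0) := by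
  induction f using FreeAlgebra.induction generalizing u with
  | grade0 r => simp [Algebra.smul_def]
  | grade1 a =>
    cases a with
    | none =>
      change act k (gam k (zz k _)) (u, 0) = (zz k _ * u, 0)
      rw [gam_z, act_z, add_zero]
    | some x =>
      change act k (gam k (br k x)) (u, 0) = (br k x * u, 0)
      rw [gam_br]
      by_cases h : IsE x
      · rw [if_pos h, map_mul, Module.End.mul_apply, act_br, if_pos h, act_z]; simp
      · rw [if_neg h, act_br, if_neg h]
  | mul a b ha hb => rw [map_mul, map_mul, Module.End.mul_apply, hb, ha, mul_assoc]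
  | add a b ha hb => rw [map_add, map_add, LinearMap.add_apply, ha, hb, add_mul]; simp

theorem gam_inj : Function.Injective (gam k) := by
  intro a b hab
  have h1 := act_gam a 1
  rw [hab, act_gam] at h1
  simpa using h1.symm

/-- The free basis of the small subalgebra. -/
noncomputable def bas (k : Type) [Field k] : FF k (NN k) →ₐ[k] FF k (NN k) :=
  (shift k (-1)).comp (gam k)

theorem bas_inj : Function.Injective (bas k) := shift_inj.comp gam_inj

theorem bas_z : bas k (zz k _) = zz k _ := by simp [bas, gam_z, shift_z]

theorem bas_e (n : ℕ) : bas k (br k (Finsupp.single n 1 : NN k)) =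
    zz k _ * br k (Finsupp.single n 1 : NN k) := by
  have h : IsE (Finsupp.single n 1 : NN k) := ⟨n, rfl⟩
  simp [bas, gam_br, shift_br, h, shift_z]

theorem bas_ne (x : NN k) (h : ¬ IsE x) : bas k (br k x) = br k x - sig k x := by
  simp [bas, gam_br, shift_br, h, sub_eq_add_neg]

theorem eps_bas (f : FF k (NN k)) : eps k _ (bas k f) = eps k _ f := by
  have : (eps k _).comp (bas k) = eps k _ := by
    apply FF_ext
    · simp [bas_z]
    · intro x
      by_cases h : IsE x
      · obtain ⟨n, rfl⟩ := h
        simp [bas_e]
      · simp [bas_ne x h, eps_sig]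
  exact congrArg (fun g => g f) this

theorem aeval_mem (B : Subalgebra k (FF k (NN k))) (hz : zz k _ ∈ B) (p : k[X]) :
    aeval (zz k (NN k)) p ∈ B :=
  (Algebra.adjoin_le (by simpa using hz) : Algebra.adjoin k {zz k (NN k)} ≤ B)
    (aeval_mem_adjoin_singleton k _)

theorem s_mem_range (x : NN k) : br k x - sig k x ∈ (bas k).range := by
  by_cases h : IsE x
  · obtain ⟨n, rfl⟩ := h
    rw [sig_single, map_one, mul_one, sub_self]; exact zero_mem _
  · exact ⟨_, bas_ne x h⟩

theorem zsig_mem_range (x : NN k) : zz k _ * sig k x ∈ (bas k).range := by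
  induction x using Finsupp.induction_linear with
  | zero => simp
  | add a b ha hb => rw [map_add, mul_add]; exact add_mem ha hb
  | single n q =>
    rw [sig_single, ← mul_assoc]
    have hz : zz k _ ∈ (bas k).range := ⟨_, bas_z⟩
    exact mul_mem ⟨_, bas_e n⟩ (aeval_mem _ hz q)

theorem s_smul_mem (p : k[X]) (x : NN k) :
    br k (p • x) - br k x * aeval (zz k (NN k)) p ∈ AA k (NN k) := by
  induction p using Polynomial.induction_on generalizing x with
  | C c =>
    have := gen_mem (Gen.smul (k := k) c x)
    rwa [aeval_C, ← Algebra.commutes]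
  | add p r hp hr =>
    have h1 := gen_mem (Gen.add (k := k) (p • x) (r • x))
    have := add_mem (add_mem h1 (hp x)) (hr x)
    convert this using 1
    rw [add_smul, map_add, mul_add]; abel
  | monomial n c ih =>
    have h1 := ih ((X : k[X]) • x)
    have h2 := mul_mem (gen_mem (Gen.xmul (k := k) x))
      (aeval_mem (AA k (NN k)) (gen_mem Gen.z) (C c * X ^ n))
    have := add_mem h1 h2
    convert this using 1
    rw [pow_succ, ← mul_assoc, mul_smul, mul_comm (C c * X ^ n) X, map_mul _ X, aeval_X, sub_mul,
      mul_assoc]
    abel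

theorem s_mem_AA (x : NN k) : br k x - sig k x ∈ AA k (NN k) := by
  induction x using Finsupp.induction_linear with
  | zero =>
    have := s_smul_mem (0 : k[X]) (0 : NN k)
    simpa using this
  | add a b ha hb =>
    have := add_mem (add_mem (gen_mem (Gen.add (k := k) a b)) ha) hb
    convert this using 1
    rw [map_add]; abel
  | single n q =>
    have := s_smul_mem q (Finsupp.single n 1 : NN k)
    rwa [Finsupp.smul_single, smul_eq_mul, mul_one, ← sig_single] at this

theorem range_bas : (bas k).range = AA k (NN k) := by
  apply le_antisymm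
  · rintro _ ⟨f, rfl⟩
    change bas k f ∈ _
    induction f using FreeAlgebra.induction with
    | grade0 r => rw [AlgHom.commutes]; exact Subalgebra.algebraMap_mem _ r
    | grade1 a =>
      cases a with
      | none =>
        change bas k (zz k _) ∈ _
        rw [bas_z]; exact gen_mem Gen.z
      | some x =>
        change bas k (br k x) ∈ _
        by_cases h : IsE x
        · obtain ⟨n, rfl⟩ := h
          rw [bas_e]; exact gen_mem (Gen.zb _)
        · rw [bas_ne x h]; exact s_mem_AA x
    | mul a b ha hb => rw [map_mul]; exact mul_mem ha hb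
    | add a b ha hb => rw [map_add]; exact add_mem ha hb
  · apply Algebra.adjoin_le
    intro g hg
    have hz : zz k _ ∈ (bas k).range := ⟨_, bas_z⟩
    change g ∈ (bas k).range
    cases hg with
    | z => exact hz
    | zb x =>
      have := add_mem (mul_mem hz (s_mem_range x)) (zsig_mem_range x)
      convert this using 1
      rw [mul_sub]; abel
    | add x y =>
      have := sub_mem (sub_mem (s_mem_range (x + y)) (s_mem_range x)) (s_mem_range y)
      convert this using 1
      rw [map_add]; abel
    | smul c x =>
      have := sub_mem (s_mem_range ((C c : k[X]) • x))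
        (mul_mem (Subalgebra.algebraMap_mem _ c) (s_mem_range x))
      convert this using 1
      rw [sig_smul, aeval_C, ← Algebra.commutes, mul_sub]; abel
    | xmul x =>
      have := sub_mem (s_mem_range ((X : k[X]) • x)) (mul_mem (s_mem_range x) hz)
      convert this using 1
      rw [sig_smul, aeval_X, sub_mul]; abel

theorem small_free : Nonempty (AA k (NN k) ≃ₐ[k] FreeAlgebra k (Option (NN k))) :=
  ⟨((AlgEquiv.ofInjective (bas k) bas_inj).trans (Subalgebra.equivOfEq _ _ range_bas)).symm⟩

/-- Lifting along the free cover. -/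
theorem lift_cover {Y : Type} (g : Y → FF k (PP k)) (hg : ∀ y, g y ∈ AA k (PP k)) :
    ∃ H : FreeAlgebra k Y →ₐ[k] T3 k[X] (PP k →₀ k[X]), (∀ w, (H w).m = 0) ∧
      ∀ w, Tmap (Finsupp.linearCombination k[X] (id : PP k → PP k)) (H w) =
        rho k (PP k) (FreeAlgebra.lift k g w) := by
  let H : FreeAlgebra k Y →ₐ[k] T3 k[X] (PP k →₀ k[X]) := FreeAlgebra.lift k (fun y =>
    ⟨(rho k _ (g y)).e, (rho k _ (g y)).c, Finsupp.single (rho k _ (g y)).l 1, 0,
      (rho k _ (g y)).p⟩)
  refine ⟨H, fun w => ?_, fun w => ?_⟩
  · change H w ∈ T2 k _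
    induction w using FreeAlgebra.induction with
    | grade0 r => rw [AlgHom.commutes]; exact Subalgebra.algebraMap_mem _ r
    | grade1 a => simp only [H, FreeAlgebra.lift_ι_apply]; rfl
    | mul a b ha hb => rw [map_mul]; exact mul_mem ha hb
    | add a b ha hb => rw [map_add]; exact add_mem ha hb
  · have : (Tmap (Finsupp.linearCombination k[X] (id : PP k → PP k))).comp H =
        (rho k (PP k)).comp (FreeAlgebra.lift k g) := by
      apply FreeAlgebra.hom_ext
      funext y
      simp only [Function.comp, AlgHom.comp_apply, H, FreeAlgebra.lift_ι_apply]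
      ext1 <;> simp [Tmap, rho_mem (hg y)]
    exact congrArg (fun f => f w) this

theorem big_not_free (Y : Type) : ¬ Nonempty (AA k (PP k) ≃ₐ[k] FreeAlgebra k Y) := by
  rintro ⟨e⟩
  obtain ⟨H, h1, h2⟩ := lift_cover (fun y => (e.symm (FreeAlgebra.ι k y) : FF k (PP k)))
    (fun y => (e.symm (FreeAlgebra.ι k y)).2)
  have h3 : FreeAlgebra.lift k (fun y => (e.symm (FreeAlgebra.ι k y) : FF k (PP k))) =
      (AA k (PP k)).val.comp e.symm.toAlgHom := by
    apply FreeAlgebra.hom_ext
    funext y
    simp
  let i : (AA k (PP k)).toNonUnitalSubalgebra →ₙₐ[k] AA k (PP k) :=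
    { toFun := fun a => ⟨a.1, a.2⟩
      map_smul' := fun _ _ => rfl
      map_zero' := rfl
      map_add' := fun _ _ => rfl
      map_mul' := fun _ _ => rfl }
  obtain ⟨ψ, hψ⟩ := embed_of_lift (Finsupp.linearCombination k[X] (id : PP k → PP k))
    (AA k (PP k)).toNonUnitalSubalgebra (fun f hf => gen_mem hf)
    (((H.comp e.toAlgHom : AA k (PP k) →ₐ[k] _) : AA k (PP k) →ₙₐ[k] _).comp i)
    (fun a => h1 _) (fun a => by
      change Tmap _ (H (e (i a))) = _
      rw [h2, h3]
      simp [i])
  exact no_embed ψ hψ

end Pool.Agent.H.MP_cfda27_lc
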