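import Pool.Agent.H.MP_cfda27_lc.C

set_option autoImplicit false
set_option linter.unusedSectionVars false
open Polynomial FirstOrder FirstOrder.Language

namespace Pool.Agent.H.MP_cfda27_lc

theorem tv {L : FirstOrder.Language.{0, 0}} {M M' : Type} [L.Structure M] [L.Structure M'] (j : M' ↪[L] M)
    (h : ∀ (s : Finset M') (b : M), ∃ θ : M ≃[L] M, (∀ a ∈ s, θ (j a) = j a) ∧
      θ b ∈ Set.range j) (T : L.Theory) : M' ⊨ T ↔ M ⊨ T := by
  classical
  have e : M' ↪ₑ[L] M := j.toElementaryEmbedding (by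
    intro n φ x a ha
    obtain ⟨θ, h1, b, hb⟩ := h (Finset.univ.image x) a
    refine ⟨b, ?_⟩
    have h2 := (StrongHomClass.realize_boundedFormula θ φ (v := default)
      (xs := (Fin.snoc (j ∘ x) a : _ → M))).2 ha
    have h3 : (θ ∘ (Fin.snoc (j ∘ x) a : Fin (n + 1) → M)) = Fin.snoc (j ∘ x) (j b) := by
      rw [Fin.comp_snoc, hb]
      congr 1
      funext i
      exact h1 _ (by simp)
    rw [h3, Subsingleton.elim (θ ∘ default) default] at h2
    exact h2)
  exact (e.theory_model_iff T)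

variable {k : Type} [Field k]

abbrev Plus (k : Type) [Field k] (Y : Type) : NonUnitalSubalgebra k (FreeAlgebra k Y) :=
  NonUnitalAlgebra.adjoin k (Set.range (FreeAlgebra.ι k : Y → FreeAlgebra k Y))

theorem sub_mem_plus {Y : Type} (f : FreeAlgebra k Y) :
    f - algebraMap k _ (eps k Y f) ∈ Plus k Y := by
  induction f using FreeAlgebra.induction with
  | grade0 r => simp
  | grade1 a =>
    have : FreeAlgebra.ι k a ∈ Plus k Y := NonUnitalAlgebra.subset_adjoin k ⟨a, rfl⟩
    simpa using this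
  | mul a b ha hb =>
    have := add_mem (add_mem (mul_mem ha hb) (SMulMemClass.smul_mem (eps k Y a) hb))
      (SMulMemClass.smul_mem (eps k Y b) ha)
    convert this using 1
    simp only [Algebra.smul_def, map_mul, mul_sub, sub_mul]
    rw [Algebra.commutes (eps k Y b) a, Algebra.commutes (eps k Y b) (algebraMap k _ (eps k Y a))]
    abel
  | add a b ha hb =>
    have := add_mem ha hb
    convert this using 1
    simp only [map_add]; abel

theorem mem_plus {Y : Type} (f : FreeAlgebra k Y) : f ∈ Plus k Y ↔ eps k Y f = 0 := by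
  refine ⟨fun h => ?_, fun h => by simpa [h] using sub_mem_plus f⟩
  induction h using NonUnitalAlgebra.adjoin_induction with
  | mem x hx => obtain ⟨y, rfl⟩ := hx; simp
  | add x y _ _ hx hy => simp [hx, hy]
  | zero => simp
  | mul x y _ _ hx hy => simp [hx]
  | smul r x _ hx => simp [hx]

/-- The nonunital subalgebra. -/
def AP (k : Type) [Field k] (N : Type) [AddCommGroup N] [Module k[X] N] :
    NonUnitalSubalgebra k (Plus k (Option N)) where
  carrier := {x | x.1 ∈ AA k N}
  add_mem' {a b} ha hb := show a.1 + b.1 ∈ AA k N from add_mem ha hb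
  zero_mem' := zero_mem (AA k N)
  mul_mem' {a b} ha hb := show a.1 * b.1 ∈ AA k N from mul_mem ha hb
  smul_mem' c x ha := show c • x.1 ∈ AA k N from Subalgebra.smul_mem _ ha c

theorem small_free0 : ∃ f : Plus k (Option (NN k)) →ₙₐ[k] AP k (NN k), Function.Bijective f := by
  let f : Plus k (Option (NN k)) →ₙₐ[k] AP k (NN k) :=
    { toFun := fun a => ⟨⟨bas k a.1, (mem_plus _).2 (by rw [eps_bas]; exact (mem_plus _).1 a.2)⟩,
        by change bas k a.1 ∈ AA k _; rw [← range_bas]; exact ⟨_, rfl⟩⟩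
      map_smul' := fun c a => by apply Subtype.ext; apply Subtype.ext; simp
      map_zero' := by apply Subtype.ext; apply Subtype.ext; simp
      map_add' := fun a b => by apply Subtype.ext; apply Subtype.ext; simp
      map_mul' := fun a b => by apply Subtype.ext; apply Subtype.ext; simp }
  refine ⟨f, fun a b hab => Subtype.ext (bas_inj (congrArg (fun x => x.1.1) hab)), ?_⟩
  rintro ⟨⟨a, ha⟩, hA⟩
  have hA' : a ∈ (bas k).range := by rw [range_bas]; exact hA
  obtain ⟨w, rfl⟩ := hA'
  refine ⟨⟨w, (mem_plus _).2 ?_⟩, rfl⟩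
  rw [← eps_bas]; exact (mem_plus _).1 ha

theorem big_not_free0 (Y : Type) (f : Plus k Y →ₙₐ[k] AP k (PP k)) : ¬ Function.Bijective f := by
  intro hf
  let g : Y → FF k (PP k) := fun y =>
    (f ⟨FreeAlgebra.ι k y, NonUnitalAlgebra.subset_adjoin k ⟨y, rfl⟩⟩).1.1
  obtain ⟨H, h1, h2⟩ := lift_cover g (fun y => (f _).2)
  have h3 : ∀ w (hw : w ∈ Plus k Y), FreeAlgebra.lift k g w = (f ⟨w, hw⟩).1.1 := by
    intro w hw
    induction hw using NonUnitalAlgebra.adjoin_induction with
    | mem x hx => obtain ⟨y, rfl⟩ := hx; simp [g]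
    | add x y hx hy ihx ihy =>
      rw [map_add, ihx, ihy]
      exact (congrArg (fun a => a.1.1) (map_add f ⟨x, hx⟩ ⟨y, hy⟩)).symm
    | zero => rw [map_zero]; exact (congrArg (fun a => a.1.1) (map_zero f)).symm
    | mul x y hx hy ihx ihy =>
      rw [map_mul, ihx, ihy]
      exact (congrArg (fun a => a.1.1) (map_mul f ⟨x, hx⟩ ⟨y, hy⟩)).symm
    | smul r x hx ih =>
      rw [map_smul, ih]
      exact (congrArg (fun a => a.1.1) (f.map_smul' r ⟨x, hx⟩)).symm
  obtain ⟨f', hl, hr⟩ := Function.bijective_iff_has_inverse.1 hf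
  let B : NonUnitalSubalgebra k (FF k (PP k)) := (AA k (PP k)).toNonUnitalSubalgebra ⊓ Plus k _
  let i : B →ₙₐ[k] AP k (PP k) :=
    { toFun := fun a => ⟨⟨a.1, a.2.2⟩, a.2.1⟩
      map_smul' := fun _ _ => rfl
      map_zero' := rfl
      map_add' := fun _ _ => rfl
      map_mul' := fun _ _ => rfl }
  let h : B →ₙₐ[k] T3 k[X] (PP k →₀ k[X]) :=
    ((H : FreeAlgebra k Y →ₙₐ[k] _).comp (NonUnitalSubalgebraClass.subtype (Plus k Y))).comp
      ((f.inverse f' hl hr).comp i)
  obtain ⟨ψ, hψ⟩ := embed_of_lift (Finsupp.linearCombination k[X] (id : PP k → PP k)) B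
    (fun g hg => ⟨gen_mem hg, (mem_plus _).2 (by cases hg <;> simp)⟩) h
    (fun a => h1 _) (fun a => by
      change Tmap _ (H (f' (i a)).1) = _
      rw [h2, h3 _ (f' (i a)).2]
      change rho k _ (f (f' (i a))).1.1 = _
      rw [hr]
      rfl)
  exact no_embed ψ hψ

/-- The embedding of nonunital pairs. -/
noncomputable def jj0 (k : Type) [Field k] : Plus k (Option (NN k)) →ₙₐ[k] Plus k (Option (PP k)) where
  toFun a := ⟨jj k a.1, (mem_plus _).2 (by rw [jj, eps_Fmap]; exact (mem_plus _).1 a.2)⟩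
  map_smul' c a := by apply Subtype.ext; simp
  map_zero' := by apply Subtype.ext; simp
  map_add' a b := by apply Subtype.ext; simp
  map_mul' a b := by apply Subtype.ext; simp

theorem jj0_inj : Function.Injective (jj0 k) := fun _ _ h =>
  Subtype.ext (jj_inj (congrArg Subtype.val h))

theorem jj0_mem (f : Plus k (Option (NN k))) : jj0 k f ∈ AP k (PP k) ↔ f ∈ AP k (NN k) :=
  jj_mem f.1

theorem homog0 (s : Finset (Plus k (Option (NN k)))) (b : Plus k (Option (PP k))) :
    ∃ θ : Plus k (Option (PP k)) →ₙₐ[k] Plus k (Option (PP k)), Function.Bijective θ ∧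
      (∀ x, θ x ∈ AP k (PP k) ↔ x ∈ AP k (PP k)) ∧ (∀ a ∈ s, θ (jj0 k a) = jj0 k a) ∧
      θ b ∈ Set.range (jj0 k) := by
  classical
  obtain ⟨θ, h1, h2, h3, w, hw⟩ := homog (s.image Subtype.val) b.1
  let θ0 : Plus k (Option (PP k)) →ₙₐ[k] Plus k (Option (PP k)) :=
    { toFun := fun a => ⟨θ a.1, (mem_plus _).2 (by rw [h2]; exact (mem_plus _).1 a.2)⟩
      map_smul' := fun c a => by apply Subtype.ext; simp
      map_zero' := by apply Subtype.ext; simp
      map_add' := fun a b => by apply Subtype.ext; simp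
      map_mul' := fun a b => by apply Subtype.ext; simp }
  refine ⟨θ0, ⟨fun a b hab => Subtype.ext (θ.injective (congrArg Subtype.val hab)), fun a => ?_⟩,
    fun x => h1 x.1, fun a ha => Subtype.ext (h3 a.1 (Finset.mem_image_of_mem _ ha)), ?_⟩
  · refine ⟨⟨θ.symm a.1, (mem_plus _).2 ?_⟩, Subtype.ext (θ.apply_symm_apply _)⟩
    rw [← h2, θ.apply_symm_apply]; exact (mem_plus _).1 a.2
  · refine ⟨⟨w, (mem_plus _).2 ?_⟩, Subtype.ext hw⟩
    rw [← eps_Fmap (inc k)]
    change eps k _ (jj k w) = 0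
    rw [hw, h2]; exact (mem_plus _).1 b.2

end Pool.Agent.H.MP_cfda27_lc
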