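import Pool.Agent.H.MP_cfda27_lc.D

set_option autoImplicit false
set_option linter.unusedSectionVars false
open Polynomial FirstOrder FirstOrder.Language

namespace Pool.Agent.H.MP_cfda27_lc

variable {k : Type} [Field k]

abbrev LF (k : Type) : FirstOrder.Language.{0, 0} :=
  ⟨fun n => {_b : Bool // n = 2} ⊕ {_c : k // n = 0}, fun n => {_u : Unit // n = 1}⟩

@[reducible] def SF {F : Type} [Ring F] [Algebra k F] (A : Subalgebra k F) : (LF k).Structure F :=
  { funMap := fun {n} f xs =>
      Sum.elim
        (fun b : {_b : Bool // n = 2} =>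
          if b.1 then xs (Fin.cast b.2.symm 0) + xs (Fin.cast b.2.symm 1)
          else xs (Fin.cast b.2.symm 0) * xs (Fin.cast b.2.symm 1))
        (fun c : {_c : k // n = 0} => algebraMap k F c.1) f,
    RelMap := fun {_} _ xs => ∀ i, xs i ∈ A }

theorem SF_fun {F G : Type} [Ring F] [Algebra k F] [Ring G] [Algebra k G] (A : Subalgebra k F)
    (B : Subalgebra k G) (j : F →ₐ[k] G) {n : ℕ} (f : (LF k).Functions n) (x : Fin n → F) :
    j ((SF A).funMap f x) = (SF B).funMap f (j ∘ x) := by
  rcases f with ⟨b, hb⟩ | ⟨c, hc⟩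
  · cases b
    · exact map_mul j _ _
    · exact map_add j _ _
  · exact j.commutes c

theorem frozen_equiv (T : (LF k).Theory) :
    @Theory.Model _ _ (SF (AA k (NN k))) T ↔ @Theory.Model _ _ (SF (AA k (PP k))) T := by
  letI := SF (AA k (NN k))
  letI := SF (AA k (PP k))
  let j : FF k (NN k) ↪[LF k] FF k (PP k) :=
    { toFun := jj k
      inj' := jj_inj
      map_fun' := fun f x => SF_fun _ _ (jj k) f x
      map_rel' := fun _ x => forall_congr' (fun i => jj_mem (x i)) }
  refine tv j (fun s b => ?_) T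
  obtain ⟨θ, h1, -, h3, h4⟩ := homog s b
  exact ⟨{ toEquiv := θ.toEquiv
           map_fun' := fun f x => SF_fun _ _ θ.toAlgHom f x
           map_rel' := fun _ x => forall_congr' (fun i => h1 (x i)) }, h3, h4⟩

end Pool.Agent.H.MP_cfda27_lc
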